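import Pool.Agent.Y462.SS.Base

/-!
# Self-similar limits: statements of the jobs

Owner helper462.
-/

set_option autoImplicit false

namespace Pool.Agent.Y462.SS

/-- wreath products with a finite symmetric group -/
def S_WR : Prop := ∀ (C : ∀ (G : Type) [Group G], Prop), Closed C →
  ∀ (X Γ : Type) [Group Γ], Finite X → C Γ → C (Wr X Γ)

/-- free groups of any rank -/
def S_FREE : Prop := ∀ (C : ∀ (G : Type) [Group G], Prop), Closed C → ∀ α : Type, C (FreeGroup α)

/-- locally finite groups -/
def S_LF : Prop := ∀ (C : ∀ (G : Type) [Group G], Prop), Closed C → ∀ (G : Type) [Group G],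
  (∀ s : Finset G, Finite (Subgroup.closure (s : Set G))) → C G

/-- powers of a finite group are locally finite -/
def S_POW : Prop := ∀ (F ι : Type) [Group F], Finite F → ∀ s : Finset (ι → F),
  Finite (Subgroup.closure (s : Set (ι → F)))

/-- increasing unions of subgroups -/
def S_UNION : Prop := ∀ (C : ∀ (G : Type) [Group G], Prop), Closed C → ∀ (G : Type) [Group G]
  (K : ℕ → Subgroup G), Monotone K → (∀ g, ∃ n, g ∈ K n) → (∀ n, C (K n)) → C G

/-- **self-similar limits** (from `S_WR`) -/
def S_LIM : Prop := ∀ (C : ∀ (G : Type) [Group G], Prop), Closed C →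
  ∀ (X Γ : Type) [Group Γ], Finite X → ∀ ψ : Γ →* Wr X Γ, C Γ →
    ∀ (K : Subgroup Γ) [K.Normal], (∀ γ, γ ∈ K ↔ Dies ψ γ) → C (Γ ⧸ K)

/-- the sections of a tree automorphism `g` -/
def Sections {X : Type} (g : Equiv.Perm (List X)) : Set (List X → List X) :=
  {h | ∃ v, ∀ w, g (v ++ w) = g v ++ h w}

/-- the number of words of length `n` below which `g` acts nontrivially is bounded -/
def BddActivity {X : Type} (g : Equiv.Perm (List X)) : Prop :=
  ∃ c : ℕ, ∀ n : ℕ, {v : List X | v.length = n ∧ ∃ w, g (v ++ w) ≠ g v ++ w}.ncard ≤ c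

/-- a finite-state automorphism of bounded activity is bounded in the sense of `IsBdd` -/
def S_AUT : Prop := ∀ (X : Type), Finite X → ∀ g : Equiv.Perm (List X), IsTree g →
  (Sections g).Finite → BddActivity g → IsBdd g

end Pool.Agent.Y462.SS
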