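import Mathlib

/-!
# Self-similar limits in classes of groups closed under directed colimits: basic definitions

Owner helper462.
-/

set_option autoImplicit false

namespace Pool.Agent.Y462.SS

/-! ## the wreath product with the symmetric group -/

/-- the wreath product `Γ ≀ Perm X`: sections `s : X → Γ` and a permutation `p` of `X` -/
@[ext] structure Wr (X Γ : Type) where
  s : X → Γ
  p : Equiv.Perm X

namespace Wr

variable {X Γ : Type} [Group Γ]

instance : Mul (Wr X Γ) := ⟨fun a b => ⟨fun x => a.s (b.p x) * b.s x, a.p * b.p⟩⟩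
instance : One (Wr X Γ) := ⟨⟨fun _ => 1, 1⟩⟩
instance : Inv (Wr X Γ) := ⟨fun a => ⟨fun x => (a.s (a.p⁻¹ x))⁻¹, a.p⁻¹⟩⟩

@[simp] theorem mul_s (a b : Wr X Γ) (x : X) : (a * b).s x = a.s (b.p x) * b.s x := rfl
@[simp] theorem mul_p (a b : Wr X Γ) : (a * b).p = a.p * b.p := rfl
@[simp] theorem one_s (x : X) : (1 : Wr X Γ).s x = 1 := rfl
@[simp] theorem one_p : (1 : Wr X Γ).p = 1 := rfl
@[simp] theorem inv_s (a : Wr X Γ) (x : X) : (a⁻¹).s x = (a.s (a.p⁻¹ x))⁻¹ := rfl
@[simp] theorem inv_p (a : Wr X Γ) : (a⁻¹).p = a.p⁻¹ := rfl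

instance : Group (Wr X Γ) :=
  Group.ofLeftAxioms
    (fun a b c => by
      ext x
      · simp [mul_assoc]
      · simp [mul_assoc])
    (fun a => by
      ext x
      · simp
      · simp)
    (fun a => by
      ext x
      · simp
      · simp)

end Wr

/-! ## recursions: `ψ : Γ →* Γ ≀ Perm X` -/

section rec

variable {X Γ : Type} [Group Γ]

/-- action of `γ` on words given by a recursion -/
def act (ψ : Γ →* Wr X Γ) : Γ → List X → List X
  | _, [] => []
  | γ, x :: w => (ψ γ).p x :: act ψ ((ψ γ).s x) w

/-- the elements that die: `1`, and all `γ` with trivial permutation and dying sections -/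
inductive Dies (ψ : Γ →* Wr X Γ) : Γ → Prop
  | one : Dies ψ 1
  | step (γ : Γ) : (ψ γ).p = 1 → (∀ x, Dies ψ ((ψ γ).s x)) → Dies ψ γ

end rec

/-! ## automorphisms of the rooted tree of finite words -/

/-- `g` is an automorphism of the rooted tree `X^*`: it preserves the length and the prefixes -/
def IsTree {X : Type} (g : Equiv.Perm (List X)) : Prop :=
  (∀ v, (g v).length = v.length) ∧ ∀ v w, g v <+: g (v ++ w)

/-- `g` acts below the word `v` as an automorphism of depth at most `k`: it changes only the first
`k` letters after `v` -/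
def DepthAt {X : Type} (g : Equiv.Perm (List X)) (v : List X) (k : ℕ) : Prop :=
  ∀ u w : List X, u.length = k → g (v ++ u ++ w) = g (v ++ u) ++ w

/-- `v` is a prefix of the infinite word `ρ` -/
def OnRay {X : Type} (ρ : ℕ → X) (v : List X) : Prop :=
  v = List.ofFn (fun i : Fin v.length => ρ i)

/-- `g` is bounded: there are finitely many rays and a `k` such that `g` acts with depth at most `k`
below every word which is not a prefix of one of the rays -/
def IsBdd {X : Type} (g : Equiv.Perm (List X)) : Prop :=
  ∃ (R : Finset (ℕ → X)) (k : ℕ), ∀ v : List X, (∀ ρ ∈ R, ¬ OnRay ρ v) → DepthAt g v k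

/-! ## the closure properties -/

/-- The closure properties of the class of groups that satisfy the full Farrell–Jones conjecture
which are used: it contains the infinite cyclic group, and it is closed under subgroups (groups that
embed), finite products, free products, overgroups of finite index and colimits of directed systems
with arbitrary structure maps. -/
structure Closed (C : ∀ (G : Type) [Group G], Prop) : Prop where
  int : C (Multiplicative ℤ)
  of_injective : ∀ (G H : Type) [Group G] [Group H] (f : G →* H), Function.Injective f →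
    C H → C G
  prod : ∀ (G H : Type) [Group G] [Group H], C G → C H → C (G × H)
  coprod : ∀ (G H : Type) [Group G] [Group H], C G → C H → C (Monoid.Coprod G H)
  finiteIndex : ∀ (G : Type) [Group G] (K : Subgroup G), K.FiniteIndex → C K → C G
  colim : ∀ (I : Type) [Preorder I] [Nonempty I] (_ : ∀ i j : I, ∃ k, i ≤ k ∧ j ≤ k)
    (G : I → Type) [∀ i, Group (G i)] (f : ∀ i j, i ≤ j → G i →* G j)
    (L : Type) [Group L] (g : ∀ i, G i →* L),
    (∀ i (h : i ≤ i) (x : G i), f i i h x = x) →
    (∀ i j k (h : i ≤ j) (h' : j ≤ k) (x : G i), f j k h' (f i j h x) = f i k (h.trans h') x) →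
    (∀ i j (h : i ≤ j) (x : G i), g j (f i j h x) = g i x) →
    (∀ y : L, ∃ i, ∃ x : G i, g i x = y) →
    (∀ i (x : G i), g i x = 1 → ∃ j, ∃ h : i ≤ j, f i j h x = 1) →
    (∀ i, C (G i)) → C L

end Pool.Agent.Y462.SS
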