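import Pool.Agent.Y462.SS.Tree

/-!
# The cover: a free product of a finite group, a locally finite group and a free group

Owner helper462.
-/

set_option autoImplicit false

open Classical

namespace Pool.Agent.Y462.SS

variable {X : Type}

/-! ## automorphisms of finite depth -/

/-- `g` has depth at most `k` -/
def IsDep : ℕ → T X → Prop
  | 0, g => g = 1
  | k + 1, g => ∀ x, IsDep k (sec g x)

theorem isDep_zero (g : T X) : IsDep 0 g ↔ g = 1 := Iff.rfl
theorem isDep_succ (k : ℕ) (g : T X) : IsDep (k + 1) g ↔ ∀ x, IsDep k (sec g x) := Iff.rfl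

theorem isDep_one (k : ℕ) : IsDep k (1 : T X) := by
  induction k with
  | zero => rfl
  | succ k ih => exact fun x => by rw [sec_one]; exact ih

theorem isDep_mul {k : ℕ} {g h : T X} (hg : IsDep k g) (hh : IsDep k h) : IsDep k (g * h) := by
  induction k generalizing g h with
  | zero =>
    rw [isDep_zero] at *
    rw [hg, hh, one_mul]
  | succ k ih => exact fun x => by rw [sec_mul]; exact ih (hg _) (hh _)

theorem root_inv (g : T X) : root g⁻¹ = (root g)⁻¹ :=
  congrArg Wr.p ((toWr X).map_inv g)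

theorem sec_inv (g : T X) (x : X) : sec g⁻¹ x = (sec g ((root g)⁻¹ x))⁻¹ :=
  congrFun (congrArg Wr.s ((toWr X).map_inv g)) x

theorem isDep_inv {k : ℕ} {g : T X} (hg : IsDep k g) : IsDep k g⁻¹ := by
  induction k generalizing g with
  | zero =>
    rw [isDep_zero] at *
    rw [hg, inv_one]
  | succ k ih => exact fun x => by rw [sec_inv]; exact ih (hg _)

theorem isDep_mono {k : ℕ} {g : T X} (hg : IsDep k g) : IsDep (k + 1) g := by
  induction k generalizing g with
  | zero =>
    rw [isDep_zero] at hg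
    rw [hg]
    exact isDep_one 1
  | succ k ih => exact fun x => ih (hg x)

theorem isDep_sec {k : ℕ} {g : T X} (hg : IsDep k g) (x : X) : IsDep k (sec g x) := by
  cases k with
  | zero =>
    rw [isDep_zero] at *
    rw [hg, sec_one]
  | succ k => exact isDep_mono (hg x)

variable (X) in
/-- the group of the automorphisms of depth at most `k` -/
def Dk (k : ℕ) : Subgroup (T X) where
  carrier := {g | IsDep k g}
  one_mem' := isDep_one k
  mul_mem' := isDep_mul
  inv_mem' := isDep_inv

theorem finite_Dk [Finite X] (k : ℕ) : Finite (Dk X k) := by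
  induction k with
  | zero =>
    have : Subsingleton (Dk X 0) := ⟨fun a b => Subtype.ext ((a.2 : a.1 = 1).trans
      (b.2 : b.1 = 1).symm)⟩
    infer_instance
  | succ k ih =>
    refine Finite.of_injective
      (fun g : Dk X (k + 1) => ((fun x => (⟨sec g.1 x, g.2 x⟩ : Dk X k)), root g.1)) ?_
    intro g h hgh
    have h1 := congrArg Prod.fst hgh
    have h2 := congrArg Prod.snd hgh
    apply Subtype.ext
    refine T_ext h2 fun x => ?_
    exact congrArg Subtype.val (congrFun h1 x)

/-! ## the cover -/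

variable (d : X) (k : ℕ)

/-- one step of a directed automorphism along the ray `d d d ...` -/
def B1 : Subgroup (Wr X (Dk X k)) where
  carrier := {b | b.p d = d ∧ b.s d = 1}
  one_mem' := ⟨rfl, rfl⟩
  mul_mem' := by
    rintro a b ⟨ha, ha'⟩ ⟨hb, hb'⟩
    refine ⟨?_, ?_⟩
    · rw [Wr.mul_p, Equiv.Perm.mul_apply, hb, ha]
    · rw [Wr.mul_s, hb, ha', hb', one_mul]
  inv_mem' := by
    rintro a ⟨ha, ha'⟩
    have h1 : a.p⁻¹ d = d := by rw [Equiv.Perm.inv_eq_iff_eq, ha]
    refine ⟨?_, ?_⟩
    · rw [Wr.inv_p, h1]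
    · rw [Wr.inv_s, h1, ha', inv_one]

theorem finite_B1 [Finite X] : Finite (B1 d k) := by
  have := finite_Dk (X := X) k
  have : Finite (Wr X (Dk X k)) := by
    refine Finite.of_injective (fun g : Wr X (Dk X k) => (g.s, g.p)) ?_
    intro g h hgh
    exact Wr.ext (congrArg Prod.fst hgh) (congrArg Prod.snd hgh)
  infer_instance

/-- the rays different from `d d d ...` -/
abbrev Ray' : Type := {ξ : ℕ → X // ξ ≠ fun _ => d}

/-- the cover -/
def Gam : Type := Monoid.Coprod (Monoid.Coprod (Dk X k) (ℕ → B1 d k)) (FreeGroup (Ray' d))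

noncomputable instance : Group (Gam d k) :=
  inferInstanceAs (Group (Monoid.Coprod (Monoid.Coprod (Dk X k) (ℕ → B1 d k))
    (FreeGroup (Ray' d))))

/-- the shift of a sequence -/
def sh {α : Type} (f : ℕ → α) : ℕ → α := fun n => f (n + 1)

/-- the automorphisms of depth at most `k` in the cover -/
noncomputable def iA : Dk X k →* Gam d k where
  toFun a := (Monoid.Coprod.inl (Monoid.Coprod.inl a) :
    Monoid.Coprod (Monoid.Coprod (Dk X k) (ℕ → B1 d k)) (FreeGroup (Ray' d)))
  map_one' := by rw [map_one, map_one]; rfl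
  map_mul' a b := by rw [map_mul, map_mul]; rfl

/-- the directed automorphisms along `d d d ...` in the cover -/
noncomputable def iB : (ℕ → B1 d k) →* Gam d k where
  toFun a := (Monoid.Coprod.inl (Monoid.Coprod.inr a) :
    Monoid.Coprod (Monoid.Coprod (Dk X k) (ℕ → B1 d k)) (FreeGroup (Ray' d)))
  map_one' := by rw [map_one, map_one]; rfl
  map_mul' a b := by rw [map_mul, map_mul]; rfl

/-- the free factor of the cover -/
noncomputable def iC : FreeGroup (Ray' d) →* Gam d k where
  toFun a := (Monoid.Coprod.inr a :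
    Monoid.Coprod (Monoid.Coprod (Dk X k) (ℕ → B1 d k)) (FreeGroup (Ray' d)))
  map_one' := by rw [map_one]; rfl
  map_mul' a b := by rw [map_mul]; rfl

/-- the element that moves the ray `d d d ...` to the ray `ξ` -/
noncomputable def cc (ξ : ℕ → X) : Gam d k :=
  if h : ξ = fun _ => d then 1 else iC d k (FreeGroup.of ⟨ξ, h⟩)

theorem cc_base : cc d k (fun _ => d) = 1 := dif_pos rfl

theorem cc_ray (ξ : Ray' d) : cc d k ξ.1 = iC d k (FreeGroup.of ξ) :=
  dif_neg ξ.2

/-- the recursion on the automorphisms of depth at most `k` -/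
noncomputable def psiA : Dk X k →* Wr X (Gam d k) where
  toFun a := ⟨fun x => iA d k ⟨sec a.1 x, isDep_sec a.2 x⟩, root a.1⟩
  map_one' := by
    apply Wr.ext
    · funext x
      change iA d k _ = 1
      rw [← map_one (iA d k)]
      congr 1
    · exact root_one
  map_mul' a b := by
    apply Wr.ext
    · funext x
      change iA d k _ = iA d k _ * iA d k _
      rw [← map_mul]
      congr 1
      exact Subtype.ext (sec_mul a.1 b.1 x)
    · exact root_mul a.1 b.1

/-- the recursion on the directed automorphisms -/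
noncomputable def psiB : (ℕ → B1 d k) →* Wr X (Gam d k) where
  toFun β := ⟨fun x => if x = d then iB d k (sh β) else iA d k ((β 0).1.s x), (β 0).1.p⟩
  map_one' := by
    apply Wr.ext
    · funext x
      change (if x = d then iB d k (sh 1) else iA d k 1) = 1
      have h1 : iB d k (sh 1) = 1 := map_one _
      rw [h1, map_one, ite_self]
    · rfl
  map_mul' β γ := by
    apply Wr.ext
    · funext x
      change (if x = d then iB d k (sh (β * γ)) else iA d k (((β 0).1 * (γ 0).1).s x)) =
        (if (γ 0).1.p x = d then iB d k (sh β) else iA d k ((β 0).1.s ((γ 0).1.p x))) *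
        (if x = d then iB d k (sh γ) else iA d k ((γ 0).1.s x))
      have hd : (γ 0).1.p d = d := (γ 0).2.1
      by_cases hx : x = d
      · subst hx
        rw [if_pos rfl, if_pos hd, if_pos rfl, ← map_mul]
        rfl
      · have h2 : (γ 0).1.p x ≠ d := by
          intro h
          exact hx ((γ 0).1.p.injective (h.trans hd.symm))
        rw [if_neg hx, if_neg h2, if_neg hx, Wr.mul_s, map_mul]
    · rfl

/-- the recursion on the elements that move rays -/
noncomputable def psiC (ξ : ℕ → X) : Wr X (Gam d k) :=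
  ⟨fun x => if x = d then cc d k (sh ξ) else 1, Equiv.swap d (ξ 0)⟩

/-- the recursion on the free factor -/
noncomputable def psiF : FreeGroup (Ray' d) →* Wr X (Gam d k) :=
  FreeGroup.lift fun ξ => psiC d k ξ.1

/-- the recursion of the cover, before the change of instances -/
noncomputable def psi0 : Monoid.Coprod (Monoid.Coprod (Dk X k) (ℕ → B1 d k))
    (FreeGroup (Ray' d)) →* Wr X (Gam d k) :=
  Monoid.Coprod.lift (Monoid.Coprod.lift (psiA d k) (psiB d k)) (psiF d k)

/-- the recursion of the cover -/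
noncomputable def psi : Gam d k →* Wr X (Gam d k) where
  toFun := psi0 d k
  map_one' := (psi0 d k).map_one
  map_mul' := (psi0 d k).map_mul

theorem psi_iA (a : Dk X k) : psi d k (iA d k a) = psiA d k a := by
  change psi0 d k (Monoid.Coprod.inl (Monoid.Coprod.inl a)) = _
  rw [psi0, Monoid.Coprod.lift_apply_inl, Monoid.Coprod.lift_apply_inl]

theorem psi_iB (β : ℕ → B1 d k) : psi d k (iB d k β) = psiB d k β := by
  change psi0 d k (Monoid.Coprod.inl (Monoid.Coprod.inr β)) = _
  rw [psi0, Monoid.Coprod.lift_apply_inl, Monoid.Coprod.lift_apply_inr]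

theorem psi_iC (γ : FreeGroup (Ray' d)) : psi d k (iC d k γ) = psiF d k γ := by
  change psi0 d k (Monoid.Coprod.inr γ) = _
  rw [psi0, Monoid.Coprod.lift_apply_inr]

theorem psi_cc (ξ : ℕ → X) : psi d k (cc d k ξ) = psiC d k ξ := by
  by_cases h : ξ = fun _ => d
  · subst h
    rw [cc_base, map_one]
    apply Wr.ext
    · funext x
      change 1 = if x = d then cc d k (fun _ => d) else 1
      rw [cc_base, ite_self]
    · exact (Equiv.swap_self d).symm
  · have := cc_ray d k ⟨ξ, h⟩
    change cc d k ξ = _ at this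
    rw [this, psi_iC, psiF, FreeGroup.lift_apply_of]

/-! ## letters -/

/-- the element of the cover that moves the ray `ξ` to the ray `η` -/
noncomputable def dl (ξ : ℕ → X) (β : ℕ → B1 d k) (η : ℕ → X) : Gam d k :=
  cc d k η * iB d k β * (cc d k ξ)⁻¹

theorem psi_dl_p (ξ : ℕ → X) (β : ℕ → B1 d k) (η : ℕ → X) (x : X) :
    (psi d k (dl d k ξ β η)).p x =
      Equiv.swap d (η 0) ((β 0).1.p (Equiv.swap d (ξ 0) x)) := by
  unfold dl
  rw [map_mul, map_mul, map_inv, psi_cc, psi_cc, psi_iB]
  rfl

theorem psi_dl_s_ray (ξ : ℕ → X) (β : ℕ → B1 d k) (η : ℕ → X) :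
    (psi d k (dl d k ξ β η)).s (ξ 0) = dl d k (sh ξ) (sh β) (sh η) := by
  unfold dl
  rw [map_mul, map_mul, map_inv, psi_cc, psi_cc, psi_iB]
  change (if (β 0).1.p ((Equiv.swap d (ξ 0)) (ξ 0)) = d then cc d k (sh η) else 1) *
    (if (Equiv.swap d (ξ 0)) (ξ 0) = d then iB d k (sh β) else _) *
    (if (Equiv.swap d (ξ 0)) (ξ 0) = d then cc d k (sh ξ) else 1)⁻¹ = _
  have h1 : (Equiv.swap d (ξ 0)) (ξ 0) = d := Equiv.swap_apply_right _ _
  have h2 : (β 0).1.p d = d := (β 0).2.1
  rw [h1, if_pos rfl, if_pos rfl, if_pos h2]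

theorem psi_dl_s_off (ξ : ℕ → X) (β : ℕ → B1 d k) (η : ℕ → X) (x : X) (hx : x ≠ ξ 0) :
    (psi d k (dl d k ξ β η)).s x = iA d k ((β 0).1.s (Equiv.swap d (ξ 0) x)) := by
  unfold dl
  rw [map_mul, map_mul, map_inv, psi_cc, psi_cc, psi_iB]
  change (if (β 0).1.p ((Equiv.swap d (ξ 0)) x) = d then cc d k (sh η) else 1) *
    (if (Equiv.swap d (ξ 0)) x = d then iB d k (sh β) else
      iA d k ((β 0).1.s (Equiv.swap d (ξ 0) x))) *
    (if (Equiv.swap d (ξ 0)) x = d then cc d k (sh ξ) else 1)⁻¹ = _
  have h1 : (Equiv.swap d (ξ 0)) x ≠ d := by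
    intro h
    apply hx
    rw [Equiv.swap_apply_eq_iff, Equiv.swap_apply_left] at h
    exact h
  have h3 : (β 0).1.p d = d := (β 0).2.1
  have h2 : (β 0).1.p ((Equiv.swap d (ξ 0)) x) ≠ d := by
    intro h
    exact h1 ((β 0).1.p.injective (h.trans h3.symm))
  rw [if_neg h1, if_neg h1, if_neg h2, one_mul, inv_one, mul_one]

theorem dl_mul (ξ η ζ : ℕ → X) (β γ : ℕ → B1 d k) :
    dl d k η γ ζ * dl d k ξ β η = dl d k ξ (γ * β) ζ := by
  unfold dl
  rw [map_mul]
  group

end Pool.Agent.Y462.SS
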