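import Pool.Agent.Y462.SS.EN
import Pool.Agent.Y462.SS.St

/-!
# Elements of the cover that act trivially die; the groups `M k`

Owner helper462.
-/

set_option autoImplicit false

open Classical

namespace Pool.Agent.Y462.SS

variable {X : Type} (d : X) (k : ℕ)

theorem act_iA (a : Dk X k) (w : List X) : act (psi d k) (iA d k a) w = a.1.1 w := by
  induction w generalizing a with
  | nil => rw [act_nil, nil_eq]
  | cons x w ih => rw [act_cons, cons_eq, psi_iA_s, psi_iA_p, ih]

theorem tau_iA (a : Dk X k) : tau (psi d k) (iA d k a) = a.1 := by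
  apply Subtype.ext
  apply Equiv.ext
  exact act_iA d k a

/-- the letters act faithfully -/
theorem tau_dl_aux (n : ℕ) (ξ : ℕ → X) (β : ℕ → B1 d k) (η : ℕ → X)
    (h : tau (psi d k) (dl d k ξ β η) = 1) : ξ n = η n ∧ β n = 1 := by
  induction n generalizing ξ β η with
  | zero =>
    have h1 : (psi d k (dl d k ξ β η)).p = 1 := by rw [← root_tau, h, root_one]
    have h2 : ∀ x, Equiv.swap d (η 0) ((β 0).1.p (Equiv.swap d (ξ 0) x)) = x := by
      intro x
      rw [← psi_dl_p, h1]
      rfl
    have h3 : η 0 = ξ 0 := by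
      have := h2 (ξ 0)
      rwa [Equiv.swap_apply_right, (β 0).2.1, Equiv.swap_apply_left] at this
    refine ⟨h3.symm, ?_⟩
    apply Subtype.ext
    apply Wr.ext
    · funext y
      by_cases hy : y = d
      · rw [hy]
        exact (β 0).2.2
      · have h4 : Equiv.swap d (ξ 0) y ≠ ξ 0 := by
          intro h5
          apply hy
          rw [Equiv.swap_apply_eq_iff, Equiv.swap_apply_right] at h5
          exact h5
        have h6 : sec (tau (psi d k) (dl d k ξ β η)) (Equiv.swap d (ξ 0) y) = 1 := by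
          rw [h, sec_one]
        rw [sec_tau, psi_dl_s_off _ _ _ _ _ _ h4, tau_iA, Equiv.swap_apply_self] at h6
        exact Subtype.ext h6
    · apply Equiv.ext
      intro y
      have h4 := h2 (Equiv.swap d (ξ 0) y)
      rw [Equiv.swap_apply_self, h3] at h4
      exact (Equiv.swap d (ξ 0)).injective h4
  | succ n ih =>
    have h1 : sec (tau (psi d k) (dl d k ξ β η)) (ξ 0) = 1 := by rw [h, sec_one]
    rw [sec_tau, psi_dl_s_ray] at h1
    exact ih _ _ _ h1

theorem dl_eq_one (ξ : ℕ → X) (β : ℕ → B1 d k) (η : ℕ → X)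
    (h : tau (psi d k) (dl d k ξ β η) = 1) : dl d k ξ β η = 1 := by
  have h1 : ξ = η := funext fun n => (tau_dl_aux d k n ξ β η h).1
  have h2 : β = 1 := funext fun n => (tau_dl_aux d k n ξ β η h).2
  rw [h1, h2]
  unfold dl
  rw [map_one]
  group

/-- elements that act trivially die -/
theorem dies_of_tau {γ : Gam d k} (h : tau (psi d k) γ = 1) : Dies (psi d k) γ := by
  have h0 := en_all d k γ
  induction h0 with
  | nucA a =>
    rw [tau_iA] at h
    have h1 : a = 1 := Subtype.ext h
    rw [h1, map_one]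
    exact Dies.one
  | nucD ξ β η =>
    rw [dl_eq_one d k ξ β η h]
    exact Dies.one
  | step γ _ ih =>
    apply Dies.step
    · rw [← root_tau, h, root_one]
    · intro x
      apply ih
      rw [← sec_tau, h, sec_one]

/-- the group generated by the automorphisms of depth at most `k` and the directed ones -/
noncomputable def M : Subgroup (T X) := (tau (psi d k)).range

theorem finite_closed (C : ∀ (G : Type) [Group G], Prop) (hC : Closed C) (hLF : S_LF)
    (G : Type) [Group G] [Finite G] : C G :=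
  hLF C hC G fun _ => inferInstance

theorem Gam_closed (C : ∀ (G : Type) [Group G], Prop) (hC : Closed C) (hLF : S_LF)
    (hPOW : S_POW) (hFREE : S_FREE) [Finite X] : C (Gam d k) := by
  have := finite_Dk (X := X) k
  have := finite_B1 d k
  have h1 : C (Dk X k) := finite_closed C hC hLF _
  have h2 : C (ℕ → B1 d k) := hLF C hC _ (hPOW _ _ inferInstance)
  have h3 : C (FreeGroup (Ray' d)) := hFREE C hC _
  exact hC.coprod _ _ (hC.coprod _ _ h1 h2) h3

theorem M_closed (C : ∀ (G : Type) [Group G], Prop) (hC : Closed C) (hLF : S_LF)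
    (hPOW : S_POW) (hFREE : S_FREE) (hLIM : S_LIM) [Finite X] : C (M d k) := by
  have h1 : C (Gam d k ⧸ (tau (psi d k)).ker) := by
    refine hLIM C hC X (Gam d k) inferInstance (psi d k) (Gam_closed d k C hC hLF hPOW hFREE) _ ?_
    intro γ
    rw [MonoidHom.mem_ker]
    exact ⟨dies_of_tau d k, tau_of_dies _⟩
  exact hC.of_injective _ _ (QuotientGroup.quotientKerEquivRange (tau (psi d k))).symm.toMonoidHom
    (QuotientGroup.quotientKerEquivRange (tau (psi d k))).symm.injective h1

/-- `M k` is self-similar -/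
theorem sec_mem_M {h : T X} (hh : h ∈ M d k) (x : X) : sec h x ∈ M d k := by
  obtain ⟨γ, rfl⟩ := hh
  rw [sec_tau]
  exact ⟨_, rfl⟩

theorem dep_mem_M {h : T X} (hh : IsDep k h) : h ∈ M d k :=
  ⟨iA d k ⟨h, hh⟩, tau_iA d k _⟩

/-! ## directed automorphisms -/

/-- the sections of `h` along the ray `ξ` -/
def al (ξ : ℕ → X) (h : T X) : ℕ → T X
  | 0 => h
  | n + 1 => sec (al ξ h n) (ξ n)

theorem al_sh (ξ : ℕ → X) (h : T X) (n : ℕ) :
    al (sh ξ) (sec h (ξ 0)) n = al ξ h (n + 1) := by
  induction n with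
  | zero => rfl
  | succ n ih => rw [al, ih, al]; rfl

/-- the sections of `h` off the ray `ξ` have depth at most `k` -/
def Dir (k : ℕ) (ξ : ℕ → X) (h : T X) : Prop :=
  ∀ n x, x ≠ ξ n → IsDep k (sec (al ξ h n) x)

theorem act_dl (w : List X) (h : T X) (ξ : ℕ → X) (β : ℕ → B1 d k) (η : ℕ → X)
    (h1 : ∀ n, root (al ξ h n) (ξ n) = η n)
    (h2 : ∀ n, (β n).1.p = Equiv.swap d (η n) * root (al ξ h n) * Equiv.swap d (ξ n))
    (h3 : ∀ n x, x ≠ d → ((β n).1.s x).1 = sec (al ξ h n) (Equiv.swap d (ξ n) x)) :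
    act (psi d k) (dl d k ξ β η) w = h.1 w := by
  induction w generalizing h ξ β η with
  | nil => rw [act_nil, nil_eq]
  | cons x w ih =>
    rw [act_cons, cons_eq, psi_dl_p, h2]
    have h4 : Equiv.swap d (η 0) ((Equiv.swap d (η 0) * root (al ξ h 0) * Equiv.swap d (ξ 0))
        (Equiv.swap d (ξ 0) x)) = root h x := by
      rw [Equiv.Perm.mul_apply, Equiv.Perm.mul_apply, Equiv.swap_apply_self,
        Equiv.swap_apply_self]
      rfl
    rw [h4]
    congr 1
    by_cases hx : x = ξ 0
    · rw [hx, psi_dl_s_ray]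
      apply ih
      · intro n
        rw [al_sh]
        exact h1 (n + 1)
      · intro n
        rw [al_sh]
        exact h2 (n + 1)
      · intro n y hy
        rw [al_sh]
        exact h3 (n + 1) y hy
    · rw [psi_dl_s_off _ _ _ _ _ _ hx, act_iA, h3]
      · rw [Equiv.swap_apply_self]
        rfl
      · intro h5
        apply hx
        rw [Equiv.swap_apply_eq_iff, Equiv.swap_apply_left] at h5
        exact h5

theorem dir_mem_M {ξ : ℕ → X} {h : T X} (hh : Dir k ξ h) : h ∈ M d k := by
  have hoff : ∀ n x, x ≠ d → IsDep k (sec (al ξ h n) (Equiv.swap d (ξ n) x)) := by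
    intro n x hx
    apply hh
    intro h5
    apply hx
    rw [Equiv.swap_apply_eq_iff, Equiv.swap_apply_right] at h5
    exact h5
  let β : ℕ → B1 d k := fun n =>
    ⟨⟨fun x => if hx : x = d then 1 else ⟨sec (al ξ h n) (Equiv.swap d (ξ n) x), hoff n x hx⟩,
      Equiv.swap d (root (al ξ h n) (ξ n)) * root (al ξ h n) * Equiv.swap d (ξ n)⟩, by
      refine ⟨?_, dif_pos rfl⟩
      change (Equiv.swap d (root (al ξ h n) (ξ n)) * root (al ξ h n) * Equiv.swap d (ξ n)) d = d
      rw [Equiv.Perm.mul_apply, Equiv.Perm.mul_apply, Equiv.swap_apply_left,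
        Equiv.swap_apply_right]⟩
  refine ⟨dl d k ξ β (fun n => root (al ξ h n) (ξ n)), ?_⟩
  apply Subtype.ext
  apply Equiv.ext
  intro w
  refine act_dl d k w h ξ β _ (fun n => rfl) (fun n => rfl) ?_
  intro n x hx
  change Subtype.val (if hx : x = d then 1 else
    ⟨sec (al ξ h n) (Equiv.swap d (ξ n) x), hoff n x hx⟩ : Dk X k) = _
  rw [dif_neg hx]

theorem dir_tau_dl (ξ : ℕ → X) (β : ℕ → B1 d k) (η : ℕ → X) :
    Dir k ξ (tau (psi d k) (dl d k ξ β η)) := by
  have h1 : ∀ (n : ℕ) (ξ : ℕ → X) (β : ℕ → B1 d k) (η : ℕ → X), ∃ β' η',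
      al ξ (tau (psi d k) (dl d k ξ β η)) n =
        tau (psi d k) (dl d k (fun m => ξ (m + n)) β' η') := by
    intro n
    induction n with
    | zero => exact fun ξ β η => ⟨β, η, rfl⟩
    | succ n ih =>
      intro ξ β η
      obtain ⟨β', η', h2⟩ := ih ξ β η
      refine ⟨sh β', sh η', ?_⟩
      rw [al, h2, sec_tau]
      have h3 := psi_dl_s_ray d k (fun m => ξ (m + n)) β' η'
      rw [zero_add] at h3
      rw [h3]
      congr 2
      funext m
      change ξ (m + 1 + n) = ξ (m + (n + 1))
      congr 1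
      omega
  intro n x hx
  obtain ⟨β', η', h2⟩ := h1 n ξ β η
  rw [h2, sec_tau, psi_dl_s_off, tau_iA]
  · exact ((β' 0).1.s _).2
  · simpa using hx

theorem dir_mono {ξ : ℕ → X} {h : T X} (hh : Dir k ξ h) : Dir (k + 1) ξ h :=
  fun n x hx => isDep_mono (hh n x hx)

theorem M_le_succ : M d k ≤ M d (k + 1) := by
  rintro _ ⟨γ, rfl⟩
  obtain ⟨w, rfl⟩ := mem_Wd d k γ
  induction w with
  | nil => rw [ev, map_one]; exact one_mem _
  | cons c w ih =>
    rw [ev, map_mul]
    refine mul_mem ?_ ih
    cases c with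
    | a a =>
      rw [ev1, tau_iA]
      exact dep_mem_M d (k + 1) (isDep_mono a.2)
    | l l => exact dir_mem_M d (k + 1) (dir_mono k (dir_tau_dl d k _ _ _))

theorem M_mono : Monotone (M d) := monotone_nat_of_le_succ fun k => M_le_succ d k

/-! ## levels -/

/-- automorphisms whose sections of level `n` are in `H` -/
def Lv (H : Subgroup (T X)) : ℕ → Subgroup (T X)
  | 0 => H
  | n + 1 =>
    { carrier := {g | ∀ x, sec g x ∈ Lv H n}
      one_mem' := fun x => by rw [sec_one]; exact one_mem _
      mul_mem' := fun hg hh x => by rw [sec_mul]; exact mul_mem (hg _) (hh _)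
      inv_mem' := fun hg x => by rw [sec_inv]; exact inv_mem (hg _) }

theorem mem_Lv_succ {H : Subgroup (T X)} {n : ℕ} {g : T X} :
    g ∈ Lv H (n + 1) ↔ ∀ x, sec g x ∈ Lv H n := Iff.rfl

theorem Lv_mono_left {H K : Subgroup (T X)} (h : H ≤ K) (n : ℕ) : Lv H n ≤ Lv K n := by
  induction n with
  | zero => exact h
  | succ n ih => exact fun g hg x => ih (hg x)

theorem Lv_M_le_succ (n : ℕ) : Lv (M d k) n ≤ Lv (M d k) (n + 1) := by
  induction n with
  | zero => exact fun g hg x => sec_mem_M d k hg x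
  | succ n ih => exact fun g hg x => ih (hg x)

theorem Lv_M_mono : Monotone (Lv (M d k)) := monotone_nat_of_le_succ fun n => Lv_M_le_succ d k n

theorem Lv_closed (C : ∀ (G : Type) [Group G], Prop) (hC : Closed C) (hWR : S_WR) [Finite X]
    (H : Subgroup (T X)) (hH : C H) (n : ℕ) : C (Lv H n) := by
  induction n with
  | zero => exact hH
  | succ n ih =>
    have h1 : C (Wr X (Lv H n)) := hWR C hC X _ inferInstance ih
    let f : Lv H (n + 1) →* Wr X (Lv H n) :=
      { toFun := fun g => ⟨fun x => ⟨sec g.1 x, g.2 x⟩, root g.1⟩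
        map_one' := by
          apply Wr.ext
          · funext x
            exact Subtype.ext (sec_one x)
          · exact root_one
        map_mul' := by
          intro g h
          apply Wr.ext
          · funext x
            exact Subtype.ext (sec_mul g.1 h.1 x)
          · exact root_mul g.1 h.1 }
    refine hC.of_injective _ _ f ?_ h1
    intro g h hgh
    apply Subtype.ext
    refine T_ext (congrArg Wr.p hgh) fun x => ?_
    exact congrArg Subtype.val (congrFun (congrArg Wr.s hgh) x)

/-! ## bounded automorphisms -/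

/-- `IsBdd` with given rays and depth -/
def Bd (k : ℕ) (R : Finset (ℕ → X)) (g : T X) : Prop :=
  ∀ v : List X, (∀ ρ ∈ R, ¬ OnRay ρ v) → DepthAt g.1 v k

theorem onRay_nil (ρ : ℕ → X) : OnRay ρ [] := rfl

theorem onRay_cons (ρ : ℕ → X) (x : X) (v : List X) :
    OnRay ρ (x :: v) ↔ x = ρ 0 ∧ OnRay (sh ρ) v := by
  unfold OnRay
  rw [List.length_cons, List.ofFn_succ, List.cons.injEq]
  rfl

theorem depthAt_sec {g : T X} {x : X} {v : List X} {k : ℕ} (h : DepthAt g.1 (x :: v) k) :
    DepthAt (sec g x).1 v k := by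
  intro u w hu
  have h1 := h u w hu
  rw [List.cons_append, List.cons_append, cons_eq, cons_eq, List.cons_append] at h1
  exact (List.cons.inj h1).2

theorem isDep_of_depthAt {k : ℕ} {g : T X} (h : DepthAt g.1 [] k) : IsDep k g := by
  induction k generalizing g with
  | zero =>
    rw [isDep_zero]
    apply Subtype.ext
    apply Equiv.ext
    intro w
    have h1 := h [] w rfl
    rw [List.nil_append, List.nil_append, nil_eq] at h1
    exact h1
  | succ k ih =>
    intro x
    apply ih
    intro u w hu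
    have h1 := h (x :: u) w (by rw [List.length_cons, hu])
    rw [List.nil_append, List.cons_append, cons_eq, cons_eq, List.cons_append] at h1
    rw [List.nil_append]
    exact (List.cons.inj h1).2

/-- the rays below `x` -/
noncomputable def shR (R : Finset (ℕ → X)) (x : X) : Finset (ℕ → X) :=
  (R.filter fun ρ => ρ 0 = x).image sh

theorem bd_sec {k : ℕ} {R : Finset (ℕ → X)} {g : T X} (h : Bd k R g) (x : X) :
    Bd k (shR R x) (sec g x) := by
  intro v hv
  apply depthAt_sec
  apply h
  intro ρ hρ h1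
  rw [onRay_cons] at h1
  refine hv (sh ρ) ?_ h1.2
  exact Finset.mem_image.2 ⟨ρ, Finset.mem_filter.2 ⟨hρ, h1.1.symm⟩, rfl⟩

theorem bd_empty {k : ℕ} {g : T X} (h : Bd k ∅ g) : IsDep k g :=
  isDep_of_depthAt (h [] (by simp))

theorem bd_mono {k : ℕ} {R S : Finset (ℕ → X)} (hRS : R ⊆ S) {g : T X} (h : Bd k R g) :
    Bd k S g := fun v hv => h v fun ρ hρ => hv ρ (hRS hρ)

theorem bd_single {k : ℕ} {ρ : ℕ → X} {g : T X} (h : Bd k {ρ} g) : Dir k ρ g := by
  intro n
  induction n generalizing ρ g with
  | zero =>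
    intro x hx
    change IsDep k (sec g x)
    have h1 := bd_sec h x
    have h2 : shR {ρ} x = ∅ := by
      rw [shR, Finset.filter_singleton, if_neg (Ne.symm hx)]
      rfl
    rw [h2] at h1
    exact bd_empty h1
  | succ n ih =>
    intro x hx
    have h1 := bd_sec h (ρ 0)
    have h2 : shR {ρ} (ρ 0) = {sh ρ} := by
      rw [shR, Finset.filter_singleton, if_pos rfl]
      rfl
    rw [h2] at h1
    rw [← al_sh]
    exact ih h1 x hx

theorem card_shR_le (R : Finset (ℕ → X)) (x : X) : (shR R x).card ≤ R.card :=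
  Finset.card_image_le.trans (Finset.card_filter_le _ _)

theorem all_of_card_shR {R : Finset (ℕ → X)} {x : X} (h : R.card ≤ (shR R x).card) :
    ∀ ρ ∈ R, ρ 0 = x := by
  have h1 : (R.filter fun ρ => ρ 0 = x) = R :=
    Finset.eq_of_subset_of_card_le (Finset.filter_subset _ _) (h.trans Finset.card_image_le)
  intro ρ hρ
  rw [← h1] at hρ
  exact (Finset.mem_filter.1 hρ).2

theorem exists_level [Finite X] (k : ℕ) (N : ℕ) : ∀ (R : Finset (ℕ → X)) (g : T X),
    R.card = N → Bd k R g → ∃ n, g ∈ Lv (M d k) n := by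
  have comb : ∀ g : T X, (∀ x, ∃ n, sec g x ∈ Lv (M d k) n) → ∃ n, g ∈ Lv (M d k) n := by
    intro g hg
    have := Fintype.ofFinite X
    choose f hf using hg
    refine ⟨Finset.univ.sup f + 1, ?_⟩
    rw [mem_Lv_succ]
    intro x
    exact Lv_M_mono d k (Finset.le_sup (Finset.mem_univ x)) (hf x)
  induction N using Nat.strong_induction_on with
  | _ N ih =>
    intro R g hR hg
    by_cases h1 : ∃ ρ ∈ R, ∃ ρ' ∈ R, ρ ≠ ρ'
    · obtain ⟨ρ, hρ, ρ', hρ', hne⟩ := h1
      obtain ⟨t, ht⟩ := Function.ne_iff.1 hne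
      clear hne
      induction t generalizing R g ρ ρ' with
      | zero =>
        apply comb
        intro x
        refine ih (shR R x).card ?_ _ _ rfl (bd_sec hg x)
        rw [← hR]
        by_contra h2
        rw [not_lt] at h2
        have h3 := all_of_card_shR h2
        exact ht ((h3 ρ hρ).trans (h3 ρ' hρ').symm)
      | succ t iht =>
        apply comb
        intro x
        by_cases h2 : (shR R x).card < R.card
        · exact ih (shR R x).card (hR ▸ h2) _ _ rfl (bd_sec hg x)
        · rw [not_lt] at h2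
          have h3 := all_of_card_shR h2
          refine iht (shR R x) (sec g x) ?_ (bd_sec hg x) (sh ρ) ?_ (sh ρ') ?_ ht
          · rw [← hR]
            exact le_antisymm (card_shR_le R x) h2
          · exact Finset.mem_image.2 ⟨ρ, Finset.mem_filter.2 ⟨hρ, h3 ρ hρ⟩, rfl⟩
          · exact Finset.mem_image.2 ⟨ρ', Finset.mem_filter.2 ⟨hρ', h3 ρ' hρ'⟩, rfl⟩
    · refine ⟨0, ?_⟩
      change g ∈ M d k
      by_cases h2 : R = ∅
      · rw [h2] at hg
        exact dep_mem_M d k (bd_empty hg)
      · obtain ⟨ρ, hρ⟩ := Finset.nonempty_iff_ne_empty.2 h2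
        have h3 : R ⊆ {ρ} := by
          intro ρ' hρ'
          rw [Finset.mem_singleton]
          by_contra h4
          exact h1 ⟨ρ', hρ', ρ, hρ, h4⟩
        exact dir_mem_M d k (bd_single (bd_mono h3 hg))

end Pool.Agent.Y462.SS
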