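import Pool.Agent.Y462.SS.Cover

/-!
# The cover is contracting

Owner helper462.
-/

set_option autoImplicit false

open Classical

namespace Pool.Agent.Y462.SS

variable {X : Type} (d : X) (k : ℕ)

/-- the elements whose iterated sections are eventually letters -/
inductive EN : Gam d k → Prop
  | nucA (a : Dk X k) : EN (iA d k a)
  | nucD (ξ : ℕ → X) (β : ℕ → B1 d k) (η : ℕ → X) : EN (dl d k ξ β η)
  | step (γ : Gam d k) : (∀ x, EN ((psi d k γ).s x)) → EN γ

/-- a directed letter -/
structure DL where
  ξ : ℕ → X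
  β : ℕ → B1 d k
  η : ℕ → X

/-- value of a directed letter -/
noncomputable def DL.ev (l : DL d k) : Gam d k := dl d k l.ξ l.β l.η

/-- the shift of a directed letter -/
def DL.sh (l : DL d k) : DL d k := ⟨SS.sh l.ξ, SS.sh l.β, SS.sh l.η⟩

/-- letters -/
inductive Ltr
  | a (a : Dk X k) : Ltr
  | l (l : DL d k) : Ltr

/-- value of a letter -/
noncomputable def ev1 : Ltr d k → Gam d k
  | .a a => iA d k a
  | .l l => l.ev

/-- value of a word -/
noncomputable def ev : List (Ltr d k) → Gam d k
  | [] => 1
  | c :: w => ev1 d k c * ev w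

/-- value of a word of directed letters -/
noncomputable def evP : List (DL d k) → Gam d k
  | [] => 1
  | c :: w => c.ev * evP w

/-- number of directed letters -/
def nD : List (Ltr d k) → ℕ
  | [] => 0
  | .a _ :: w => nD w
  | .l _ :: w => nD w + 1

/-- all automorphisms of finite depth in the word have depth at most `j` -/
def dep (j : ℕ) : List (Ltr d k) → Prop
  | [] => True
  | .a a :: w => IsDep j a.1 ∧ dep j w
  | .l _ :: w => dep j w

theorem ev_append (u v : List (Ltr d k)) : ev d k (u ++ v) = ev d k u * ev d k v := by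
  induction u with
  | nil => simp [ev]
  | cons c u ih => rw [List.cons_append, ev, ev, ih, mul_assoc]

theorem dep_top (w : List (Ltr d k)) : dep d k k w := by
  induction w with
  | nil => trivial
  | cons c w ih =>
    cases c with
    | a a => exact ⟨a.2, ih⟩
    | l l => exact ih

theorem psi_iA_s (a : Dk X k) (x : X) :
    (psi d k (iA d k a)).s x = iA d k ⟨sec a.1 x, isDep_sec a.2 x⟩ := by
  rw [psi_iA]; rfl

theorem psi_iA_p (a : Dk X k) : (psi d k (iA d k a)).p = root a.1 := by
  rw [psi_iA]; rfl

/-- sections of words -/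
theorem section_word (w : List (Ltr d k)) (x : X) : ∃ w' : List (Ltr d k),
    (psi d k (ev d k w)).s x = ev d k w' ∧
    ((nD d k w' = nD d k w ∧ ∀ j, dep d k (j + 1) w → dep d k j w') ∨ nD d k w' < nD d k w) := by
  induction w with
  | nil =>
    refine ⟨[], ?_, Or.inl ⟨rfl, fun j _ => trivial⟩⟩
    rw [ev, map_one]
    rfl
  | cons c w ih =>
    obtain ⟨w', h1, h2⟩ := ih
    cases c with
    | a a =>
      refine ⟨.a ⟨sec a.1 ((psi d k (ev d k w)).p x), isDep_sec a.2 _⟩ :: w', ?_, ?_⟩
      · rw [ev, map_mul, Wr.mul_s, h1, ev1, psi_iA_s]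
        rfl
      · rcases h2 with ⟨h2, h3⟩ | h2
        · exact Or.inl ⟨h2, fun j hj => ⟨hj.1 _, h3 j hj.2⟩⟩
        · exact Or.inr h2
    | l l =>
      by_cases hx : (psi d k (ev d k w)).p x = l.ξ 0
      · refine ⟨.l l.sh :: w', ?_, ?_⟩
        · rw [ev, map_mul, Wr.mul_s, h1, hx, ev1, DL.ev, psi_dl_s_ray]
          rfl
        · rcases h2 with ⟨h2, h3⟩ | h2
          · exact Or.inl ⟨congrArg (· + 1) h2, fun j hj => h3 j hj⟩
          · exact Or.inr (Nat.add_lt_add_right h2 1)
      · refine ⟨.a ((l.β 0).1.s (Equiv.swap d (l.ξ 0) ((psi d k (ev d k w)).p x))) :: w', ?_, ?_⟩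
        · rw [ev, map_mul, Wr.mul_s, h1, ev1, DL.ev, psi_dl_s_off _ _ _ _ _ _ hx]
          rfl
        · right
          have h4 : nD d k w' ≤ nD d k w := by
            rcases h2 with ⟨h2, -⟩ | h2
            · exact h2.le
            · exact h2.le
          exact Nat.lt_succ_of_le h4

/-- words of directed letters as words -/
def emb : List (DL d k) → List (Ltr d k) := List.map .l

theorem ev_emb (u : List (DL d k)) : ev d k (emb d k u) = evP d k u := by
  induction u with
  | nil => rfl
  | cons c u ih => rw [emb, List.map_cons, ev, evP, ← ih]; rfl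

theorem nD_emb (u : List (DL d k)) : nD d k (emb d k u) = u.length := by
  induction u with
  | nil => rfl
  | cons c u ih => rw [emb, List.map_cons, nD, List.length_cons, ← ih]; rfl

/-- a word of depth `0` is a word of directed letters -/
theorem pure_of_dep (w : List (Ltr d k)) (h : dep d k 0 w) :
    ∃ u : List (DL d k), ev d k w = evP d k u ∧ u.length = nD d k w := by
  induction w with
  | nil => exact ⟨[], rfl, rfl⟩
  | cons c w ih =>
    cases c with
    | a a =>
      obtain ⟨u, h1, h2⟩ := ih h.2
      refine ⟨u, ?_, h2⟩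
      have h3 : a = 1 := Subtype.ext h.1
      rw [ev, h1, ev1, h3, map_one, one_mul]
    | l l =>
      obtain ⟨u, h1, h2⟩ := ih h
      exact ⟨l :: u, by rw [ev, h1]; rfl, by rw [List.length_cons, h2]; rfl⟩

/-- the path of `x` through the word stays on the rays -/
def Thr : List (DL d k) → X → Prop
  | [], _ => True
  | c :: u, x => Thr u x ∧ (psi d k (evP d k u)).p x = c.ξ 0

theorem section_thr (u : List (DL d k)) (x : X) (h : Thr d k u x) :
    (psi d k (evP d k u)).s x = evP d k (u.map (DL.sh d k)) := by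
  induction u with
  | nil => rw [evP, map_one]; rfl
  | cons c u ih =>
    rw [evP, map_mul, Wr.mul_s, ih h.1, h.2, DL.ev, psi_dl_s_ray]
    rfl

theorem section_not_thr (u : List (DL d k)) (x : X) (h : ¬ Thr d k u x) :
    ∃ w' : List (Ltr d k), (psi d k (evP d k u)).s x = ev d k w' ∧ nD d k w' < u.length := by
  induction u with
  | nil => exact absurd trivial h
  | cons c u ih =>
    obtain ⟨w', h1, h2⟩ := section_word d k (emb d k u) x
    rw [ev_emb, nD_emb] at *
    by_cases hu : Thr d k u x
    · have hx : (psi d k (evP d k u)).p x ≠ c.ξ 0 := fun h3 => h ⟨hu, h3⟩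
      refine ⟨.a ((c.β 0).1.s (Equiv.swap d (c.ξ 0) ((psi d k (evP d k u)).p x))) :: w', ?_, ?_⟩
      · rw [evP, map_mul, Wr.mul_s, h1, DL.ev, psi_dl_s_off _ _ _ _ _ _ hx]
        rfl
      · have h4 : nD d k w' ≤ u.length := by
          rcases h2 with ⟨h2, -⟩ | h2
          · exact h2.le
          · exact h2.le
        exact Nat.lt_succ_of_le h4
    · obtain ⟨v, h3, h4⟩ := ih hu
      by_cases hx : (psi d k (evP d k u)).p x = c.ξ 0
      · refine ⟨.l c.sh :: v, ?_, ?_⟩
        · rw [evP, map_mul, Wr.mul_s, h3, hx, DL.ev, psi_dl_s_ray]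
          rfl
        · exact Nat.add_lt_add_right h4 1
      · refine ⟨.a ((c.β 0).1.s (Equiv.swap d (c.ξ 0) ((psi d k (evP d k u)).p x))) :: v, ?_, ?_⟩
        · rw [evP, map_mul, Wr.mul_s, h3, DL.ev, psi_dl_s_off _ _ _ _ _ _ hx]
          rfl
        · exact Nat.lt_succ_of_lt h4

theorem thr_two (c e : DL d k) (u : List (DL d k)) (x : X) (h : Thr d k (c :: e :: u) x) :
    c.ξ 0 = e.η 0 := by
  obtain ⟨⟨_, h1⟩, h2⟩ := h
  rw [← h2, evP, map_mul, Wr.mul_p, Equiv.Perm.mul_apply, h1, DL.ev, psi_dl_p,
    Equiv.swap_apply_right, (e.β 0).2.1, Equiv.swap_apply_left]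

/-- words of directed letters, by induction on the first difference -/
theorem en_pure (n : ℕ) (H : ∀ w : List (Ltr d k), nD d k w < n → EN d k (ev d k w))
    (t : ℕ) (c e : DL d k) (u : List (DL d k)) (hlen : (c :: e :: u).length = n)
    (ht : c.ξ t ≠ e.η t) : EN d k (evP d k (c :: e :: u)) := by
  induction t generalizing c e u with
  | zero =>
    apply EN.step
    intro x
    have h1 : ¬ Thr d k (c :: e :: u) x := fun h => ht (thr_two d k c e u x h)
    obtain ⟨w', h2, h3⟩ := section_not_thr d k _ x h1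
    rw [h2]
    exact H w' (hlen ▸ h3)
  | succ t ih =>
    apply EN.step
    intro x
    by_cases h1 : Thr d k (c :: e :: u) x
    · rw [section_thr d k _ x h1]
      exact ih c.sh e.sh (u.map (DL.sh d k)) (by simpa using hlen) ht
    · obtain ⟨w', h2, h3⟩ := section_not_thr d k _ x h1
      rw [h2]
      exact H w' (hlen ▸ h3)

theorem en_word (n : ℕ) : ∀ w : List (Ltr d k), nD d k w = n → EN d k (ev d k w) := by
  induction n using Nat.strong_induction_on with
  | _ n ih =>
    have H : ∀ w : List (Ltr d k), nD d k w < n → EN d k (ev d k w) :=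
      fun w hw => ih _ hw w rfl
    have hdep : ∀ (j : ℕ) (w : List (Ltr d k)), nD d k w = n → dep d k j w →
        EN d k (ev d k w) := by
      intro j
      induction j with
      | zero =>
        intro w hw hd
        obtain ⟨u, h1, h2⟩ := pure_of_dep d k w hd
        rw [h1]
        rw [hw] at h2
        match u, h2 with
        | [], _ =>
          have h3 : evP d k [] = iA d k 1 := (map_one _).symm
          rw [h3]
          exact EN.nucA 1
        | [c], _ =>
          have h3 : evP d k [c] = dl d k c.ξ c.β c.η := mul_one _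
          rw [h3]
          exact EN.nucD _ _ _
        | c :: e :: u, h2 =>
          by_cases hce : c.ξ = e.η
          · have h3 : evP d k (c :: e :: u) = ev d k (emb d k (⟨e.ξ, c.β * e.β, c.η⟩ :: u)) := by
              rw [ev_emb, evP, evP, evP, ← mul_assoc, DL.ev, DL.ev, DL.ev, hce, dl_mul]
            rw [h3]
            apply H
            rw [nD_emb, ← h2]
            simp
          · obtain ⟨t, ht⟩ := Function.ne_iff.1 hce
            exact en_pure d k n H t c e u h2 ht
      | succ j ihj =>
        intro w hw hd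
        apply EN.step
        intro x
        obtain ⟨w', h1, h2⟩ := section_word d k w x
        rw [h1]
        rcases h2 with ⟨h2, h3⟩ | h2
        · exact ihj w' (h2.trans hw) (h3 j hd)
        · exact H w' (hw ▸ h2)
    intro w hw
    exact hdep k w hw (dep_top d k w)

/-- inverse of a directed letter -/
theorem dl_inv (ξ η : ℕ → X) (β : ℕ → B1 d k) : (dl d k ξ β η)⁻¹ = dl d k η β⁻¹ ξ := by
  unfold dl
  rw [map_inv]
  group

/-- the values of the words -/
def Wd : Subgroup (Gam d k) where
  carrier := {γ | ∃ w, γ = ev d k w}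
  one_mem' := ⟨[], rfl⟩
  mul_mem' := by
    rintro _ _ ⟨u, rfl⟩ ⟨v, rfl⟩
    exact ⟨u ++ v, (ev_append d k u v).symm⟩
  inv_mem' := by
    rintro _ ⟨u, rfl⟩
    induction u with
    | nil => exact ⟨[], inv_one⟩
    | cons c u ih =>
      obtain ⟨v, hv⟩ := ih
      cases c with
      | a a =>
        refine ⟨v ++ [.a a⁻¹], ?_⟩
        rw [ev, mul_inv_rev, hv, ev_append, ev, ev, mul_one, ev1, ev1, map_inv]
      | l l =>
        refine ⟨v ++ [.l ⟨l.η, l.β⁻¹, l.ξ⟩], ?_⟩
        rw [ev, mul_inv_rev, hv, ev_append, ev, ev, mul_one, ev1, ev1, DL.ev, DL.ev, dl_inv]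

theorem mem_Wd (γ : Gam d k) : γ ∈ Wd d k := by
  have hA : ∀ a, iA d k a ∈ Wd d k := fun a => ⟨[.a a], (mul_one _).symm⟩
  have hD : ∀ ξ β η, dl d k ξ β η ∈ Wd d k := fun ξ β η => ⟨[.l ⟨ξ, β, η⟩], (mul_one _).symm⟩
  have hB : ∀ β, iB d k β ∈ Wd d k := by
    intro β
    have h1 : iB d k β = dl d k (fun _ => d) β (fun _ => d) := by
      unfold dl
      rw [cc_base]
      group
    rw [h1]
    exact hD _ _ _
  have hcc : ∀ ξ, cc d k ξ ∈ Wd d k := by
    intro ξ
    have h1 : cc d k ξ = dl d k (fun _ => d) 1 ξ := by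
      unfold dl
      rw [cc_base, map_one]
      group
    rw [h1]
    exact hD _ _ _
  have hC : ∀ γ, iC d k γ ∈ Wd d k := by
    intro γ
    induction γ using FreeGroup.induction_on with
    | C1 => rw [map_one]; exact one_mem _
    | of ξ => rw [← cc_ray]; exact hcc _
    | inv_of ξ h => rw [map_inv]; exact inv_mem h
    | mul a b ha hb => rw [map_mul]; exact mul_mem ha hb
  change Monoid.Coprod (Monoid.Coprod (Dk X k) (ℕ → B1 d k)) (FreeGroup (Ray' d)) at γ
  induction γ using Monoid.Coprod.induction_on with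
  | inl γ =>
    induction γ using Monoid.Coprod.induction_on with
    | inl a => exact hA a
    | inr β => exact hB β
    | mul a b ha hb =>
      rw [map_mul]
      exact mul_mem ha hb
  | inr γ => exact hC γ
  | mul a b ha hb => exact mul_mem ha hb

theorem en_all (γ : Gam d k) : EN d k γ := by
  obtain ⟨w, hw⟩ := mem_Wd d k γ
  rw [hw]
  exact en_word d k _ w rfl

end Pool.Agent.Y462.SS
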