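import Pool.Agent.Y462.SS.Det

/-!
# Groups of bounded automorphisms of rooted trees: the main theorem from the statements of the jobs

Owner helper462.
-/

set_option autoImplicit false

namespace Pool.Agent.Y462.SS

/-- groups generated by bounded automorphisms of a rooted tree -/
theorem bounded_closed (hWR : S_WR) (hLF : S_LF) (hPOW : S_POW) (hFREE : S_FREE) (hLIM : S_LIM)
    (hUNION : S_UNION) (C : ∀ (G : Type) [Group G], Prop) (hC : Closed C)
    (X : Type) (hX : Finite X) (G : Type) [Group G] (f : G →* Equiv.Perm (List X))
    (hf : Function.Injective f) (S : Set G) (hS : Subgroup.closure S = ⊤)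
    (hT : ∀ s ∈ S, IsTree (f s)) (hB : ∀ s ∈ S, IsBdd (f s)) : C G := by
  have hmem : ∀ g, f g ∈ T X := by
    have h1 : Subgroup.closure S ≤ (T X).comap f := by
      rw [Subgroup.closure_le]
      exact hT
    intro g
    have h2 : g ∈ Subgroup.closure S := by rw [hS]; exact Subgroup.mem_top g
    exact h1 h2
  rcases isEmpty_or_nonempty X with hE | ⟨⟨d⟩⟩
  · have h1 : ∀ g : G, f g = 1 := by
      intro g
      apply Equiv.ext
      intro w
      cases w with
      | nil => exact apply_nil (hmem g)
      | cons x _ => exact (hE.false x).elim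
    have h2 : Subsingleton G := ⟨fun a b => hf ((h1 a).trans (h1 b).symm)⟩
    exact finite_closed C hC hLF G
  · let f' : G →* T X := f.codRestrict (T X) hmem
    have hf' : Function.Injective f' := fun a b h => hf (congrArg Subtype.val h)
    let K : ℕ → Subgroup G := fun N => (Lv (M d N) N).comap f'
    have hK : Monotone K := by
      apply monotone_nat_of_le_succ
      intro N g hg
      exact Lv_M_le_succ d (N + 1) N (Lv_mono_left (M_le_succ d N) N hg)
    have hKS : ∀ s ∈ S, ∃ N, s ∈ K N := by
      intro s hs
      obtain ⟨R, k, h1⟩ := hB s hs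
      obtain ⟨n, h2⟩ := exists_level d k R.card R (f' s) rfl h1
      refine ⟨max k n, ?_⟩
      exact Lv_M_mono d (max k n) (le_max_right k n)
        (Lv_mono_left (M_mono d (le_max_left k n)) n h2)
    let U : Subgroup G :=
      { carrier := {g | ∃ N, g ∈ K N}
        one_mem' := ⟨0, one_mem _⟩
        mul_mem' := by
          rintro a b ⟨m, hm⟩ ⟨n, hn⟩
          exact ⟨max m n, mul_mem (hK (le_max_left m n) hm) (hK (le_max_right m n) hn)⟩
        inv_mem' := by
          rintro a ⟨m, hm⟩
          exact ⟨m, inv_mem hm⟩ }
    have hU : Subgroup.closure S ≤ U := by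
      rw [Subgroup.closure_le]
      exact hKS
    have hall : ∀ g, ∃ N, g ∈ K N := by
      intro g
      have h2 : g ∈ Subgroup.closure S := by rw [hS]; exact Subgroup.mem_top g
      exact hU h2
    refine hUNION C hC G K hK hall ?_
    intro N
    have h1 : C (Lv (M d N) N) :=
      Lv_closed C hC hWR (M d N) (M_closed d N C hC hLF hPOW hFREE hLIM) N
    let φ : K N →* Lv (M d N) N :=
      { toFun := fun g => ⟨f' g.1, g.2⟩
        map_one' := Subtype.ext (map_one f')
        map_mul' := fun a b => Subtype.ext (map_mul f' a.1 b.1) }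
    refine hC.of_injective _ _ φ ?_ h1
    intro a b hab
    exact Subtype.ext (hf' (congrArg Subtype.val hab))

end Pool.Agent.Y462.SS
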