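import Pool.Agent.Y462.SS.Base

/-!
# Automorphisms of the rooted tree of words: sections, recursions and the groups they generate

Owner helper462.
-/

set_option autoImplicit false

namespace Pool.Agent.Y462.SS

variable {X : Type}

theorem isTree_one : IsTree (1 : Equiv.Perm (List X)) :=
  ⟨fun _ => rfl, fun v w => List.prefix_append v w⟩

theorem isTree_mul {g h : Equiv.Perm (List X)} (hg : IsTree g) (hh : IsTree h) :
    IsTree (g * h) := by
  refine ⟨fun v => ?_, fun v w => ?_⟩
  · rw [Equiv.Perm.mul_apply, hg.1, hh.1]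
  · rw [Equiv.Perm.mul_apply, Equiv.Perm.mul_apply]
    obtain ⟨u, hu⟩ := hh.2 v w
    rw [← hu]
    exact hg.2 _ _

theorem isTree_inv {g : Equiv.Perm (List X)} (hg : IsTree g) : IsTree g⁻¹ := by
  have hself : ∀ u, g (g⁻¹ u) = u := fun u => g.apply_symm_apply u
  have hlen : ∀ v, (g⁻¹ v).length = v.length := fun v => by
    rw [← hg.1 (g⁻¹ v), hself]
  refine ⟨hlen, fun v w => ?_⟩
  -- the prefix of `g⁻¹ (v ++ w)` of length `|v|` is `g⁻¹ v`
  have h1 : g ((g⁻¹ (v ++ w)).take v.length) <+: v ++ w := by
    have h2 := hg.2 ((g⁻¹ (v ++ w)).take v.length) ((g⁻¹ (v ++ w)).drop v.length)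
    rwa [List.take_append_drop, hself] at h2
  have h3 : (g ((g⁻¹ (v ++ w)).take v.length)).length = v.length := by
    rw [hg.1, List.length_take, hlen, List.length_append]
    omega
  have h4 : g ((g⁻¹ (v ++ w)).take v.length) = v := by
    have h5 := List.prefix_of_prefix_length_le h1 (List.prefix_append v w) (by rw [h3])
    exact h5.eq_of_length h3
  have h6 : g⁻¹ v = (g⁻¹ (v ++ w)).take v.length := by
    rw [Equiv.Perm.inv_eq_iff_eq, h4]
  rw [h6]
  exact List.take_prefix _ _

/-- the group of the automorphisms of the tree `X^*` -/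
def T (X : Type) : Subgroup (Equiv.Perm (List X)) where
  carrier := {g | IsTree g}
  one_mem' := isTree_one
  mul_mem' := isTree_mul
  inv_mem' := isTree_inv

theorem mem_T {g : Equiv.Perm (List X)} : g ∈ T X ↔ IsTree g := Iff.rfl

/-- action on the first letter -/
def rootFun (g : Equiv.Perm (List X)) (x : X) : X := (g [x]).headD x

/-- action on the rest -/
def secFun (g : Equiv.Perm (List X)) (x : X) (w : List X) : List X := (g (x :: w)).tail

theorem apply_single {g : Equiv.Perm (List X)} (hg : IsTree g) (x : X) :
    g [x] = [rootFun g x] := by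
  obtain ⟨y, hy⟩ := List.length_eq_one_iff.1 (hg.1 [x])
  simp [rootFun, hy]

theorem apply_cons {g : Equiv.Perm (List X)} (hg : IsTree g) (x : X) (w : List X) :
    g (x :: w) = rootFun g x :: secFun g x w := by
  have h1 := hg.2 [x] w
  rw [apply_single hg, List.singleton_append] at h1
  obtain ⟨u, hu⟩ := h1
  rw [secFun, ← hu]
  rfl

theorem apply_nil {g : Equiv.Perm (List X)} (hg : IsTree g) : g [] = [] :=
  List.length_eq_zero_iff.1 (hg.1 [])

theorem rootFun_mul {g h : Equiv.Perm (List X)} (hg : IsTree g) (hh : IsTree h) (x : X) :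
    rootFun (g * h) x = rootFun g (rootFun h x) := by
  have h1 := apply_single (isTree_mul hg hh) x
  rw [Equiv.Perm.mul_apply, apply_single hh, apply_single hg] at h1
  exact (List.singleton_injective h1).symm

theorem secFun_mul {g h : Equiv.Perm (List X)} (hg : IsTree g) (hh : IsTree h) (x : X)
    (w : List X) : secFun (g * h) x w = secFun g (rootFun h x) (secFun h x w) := by
  have h1 : (g * h) (x :: w) =
      rootFun g (rootFun h x) :: secFun g (rootFun h x) (secFun h x w) := by
    rw [Equiv.Perm.mul_apply, apply_cons hh, apply_cons hg]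
  rw [secFun, h1]
  rfl

theorem rootFun_one (x : X) : rootFun (1 : Equiv.Perm (List X)) x = x := rfl

theorem secFun_one (x : X) (w : List X) : secFun (1 : Equiv.Perm (List X)) x w = w := rfl

theorem rootFun_inv_rootFun {g : Equiv.Perm (List X)} (hg : IsTree g) (x : X) :
    rootFun g⁻¹ (rootFun g x) = x := by
  rw [← rootFun_mul (isTree_inv hg) hg, inv_mul_cancel]
  rfl

theorem rootFun_rootFun_inv {g : Equiv.Perm (List X)} (hg : IsTree g) (x : X) :
    rootFun g (rootFun g⁻¹ x) = x := by
  rw [← rootFun_mul hg (isTree_inv hg), mul_inv_cancel]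
  rfl

/-- the permutation of the letters -/
def root (g : T X) : Equiv.Perm X where
  toFun := rootFun g.1
  invFun := rootFun g.1⁻¹
  left_inv := rootFun_inv_rootFun g.2
  right_inv := rootFun_rootFun_inv g.2

theorem sec_left {g : Equiv.Perm (List X)} (hg : IsTree g) (x : X) (w : List X) :
    secFun g⁻¹ (rootFun g x) (secFun g x w) = w := by
  rw [← secFun_mul (isTree_inv hg) hg, inv_mul_cancel]
  rfl

theorem sec_right {g : Equiv.Perm (List X)} (hg : IsTree g) (x : X) (w : List X) :
    secFun g x (secFun g⁻¹ (rootFun g x) w) = w := by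
  have h1 := secFun_mul hg (isTree_inv hg) (rootFun g x) w
  rw [rootFun_inv_rootFun hg, mul_inv_cancel] at h1
  rw [← h1]
  rfl

/-- the section of `g` at the letter `x` as a permutation -/
def secPerm (g : Equiv.Perm (List X)) (hg : IsTree g) (x : X) : Equiv.Perm (List X) where
  toFun := secFun g x
  invFun := secFun g⁻¹ (rootFun g x)
  left_inv := sec_left hg x
  right_inv := sec_right hg x

theorem secPerm_isTree {g : Equiv.Perm (List X)} (hg : IsTree g) (x : X) :
    IsTree (secPerm g hg x) := by
  refine ⟨fun v => ?_, fun v w => ?_⟩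
  · change (g (x :: v)).tail.length = v.length
    rw [List.length_tail, hg.1]
    simp
  · change secFun g x v <+: secFun g x (v ++ w)
    have h1 := hg.2 (x :: v) w
    rw [List.cons_append, apply_cons hg, apply_cons hg] at h1
    exact (List.cons_prefix_cons.1 h1).2

/-- the section of `g` at the letter `x` -/
def sec (g : T X) (x : X) : T X := ⟨secPerm g.1 g.2 x, secPerm_isTree g.2 x⟩

theorem cons_eq (g : T X) (x : X) (w : List X) : g.1 (x :: w) = root g x :: (sec g x).1 w :=
  apply_cons g.2 x w

theorem nil_eq (g : T X) : g.1 [] = [] := apply_nil g.2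

theorem T_ext {g h : T X} (h0 : root g = root h) (h1 : ∀ x, sec g x = sec h x) : g = h := by
  apply Subtype.ext
  apply Equiv.ext
  intro w
  cases w with
  | nil => rw [nil_eq, nil_eq]
  | cons x w => rw [cons_eq, cons_eq, h0, h1]

/-- the recursion of the full automorphism group -/
def toWr (X : Type) : T X →* Wr X (T X) where
  toFun g := ⟨sec g, root g⟩
  map_one' := by
    ext x w
    · rfl
    · rfl
  map_mul' g h := by
    have h1 : root (g * h) = root g * root h := by
      apply Equiv.ext
      intro x
      exact rootFun_mul g.2 h.2 x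
    have h2 : sec (g * h) = fun x => sec g (root h x) * sec h x := by
      funext x
      apply Subtype.ext
      apply Equiv.ext
      intro w
      exact secFun_mul g.2 h.2 x w
    apply Wr.ext
    · exact h2
    · exact h1

@[simp] theorem toWr_s (g : T X) (x : X) : (toWr X g).s x = sec g x := rfl
@[simp] theorem toWr_p (g : T X) : (toWr X g).p = root g := rfl

theorem toWr_injective : Function.Injective (toWr X) := by
  intro g h hgh
  exact T_ext (congrArg Wr.p hgh) fun x => congrFun (congrArg Wr.s hgh) x

theorem root_mul (g h : T X) : root (g * h) = root g * root h :=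
  congrArg Wr.p ((toWr X).map_mul g h)

theorem sec_mul (g h : T X) (x : X) : sec (g * h) x = sec g (root h x) * sec h x :=
  congrFun (congrArg Wr.s ((toWr X).map_mul g h)) x

theorem root_one : root (1 : T X) = 1 := congrArg Wr.p ((toWr X).map_one)

theorem sec_one (x : X) : sec (1 : T X) x = 1 := congrFun (congrArg Wr.s ((toWr X).map_one)) x

/-! ## the tree action of a group with a recursion -/

section tau

variable {Γ : Type} [Group Γ] (ψ : Γ →* Wr X Γ)

theorem act_nil (γ : Γ) : act ψ γ [] = [] := by rw [act]

theorem act_cons (γ : Γ) (x : X) (w : List X) :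
    act ψ γ (x :: w) = (ψ γ).p x :: act ψ ((ψ γ).s x) w := by rw [act]

theorem act_one (w : List X) : act ψ 1 w = w := by
  induction w with
  | nil => rw [act_nil]
  | cons x w ih => rw [act_cons, map_one, Wr.one_p, Wr.one_s, ih]; rfl

theorem act_mul (γ δ : Γ) (w : List X) : act ψ (γ * δ) w = act ψ γ (act ψ δ w) := by
  induction w generalizing γ δ with
  | nil => simp [act_nil]
  | cons x w ih =>
    rw [act_cons, act_cons, act_cons, map_mul, Wr.mul_p, Wr.mul_s, ih]
    rfl

theorem act_length (γ : Γ) (w : List X) : (act ψ γ w).length = w.length := by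
  induction w generalizing γ with
  | nil => rw [act_nil]
  | cons x w ih => rw [act_cons, List.length_cons, List.length_cons, ih]

theorem act_prefix (γ : Γ) (v w : List X) : act ψ γ v <+: act ψ γ (v ++ w) := by
  induction v generalizing γ with
  | nil => rw [act_nil]; exact List.nil_prefix
  | cons x v ih =>
    rw [List.cons_append, act_cons, act_cons, List.cons_prefix_cons]
    exact ⟨rfl, ih _⟩

/-- the permutation of the words given by `γ` -/
def actPerm (γ : Γ) : Equiv.Perm (List X) where
  toFun := act ψ γ
  invFun := act ψ γ⁻¹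
  left_inv w := by rw [← act_mul, inv_mul_cancel, act_one]
  right_inv w := by rw [← act_mul, mul_inv_cancel, act_one]

/-- the homomorphism to the automorphism group of the tree -/
def tau : Γ →* T X where
  toFun γ := ⟨actPerm ψ γ, act_length ψ γ, act_prefix ψ γ⟩
  map_one' := by
    apply Subtype.ext
    apply Equiv.ext
    exact act_one ψ
  map_mul' γ δ := by
    apply Subtype.ext
    apply Equiv.ext
    exact act_mul ψ γ δ

theorem root_tau (γ : Γ) : root (tau ψ γ) = (ψ γ).p := by
  apply Equiv.ext
  intro x
  have h1 := cons_eq (tau ψ γ) x []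
  have h2 : (tau ψ γ).1 [x] = (ψ γ).p x :: act ψ ((ψ γ).s x) [] := act_cons ψ γ x []
  rw [h2] at h1
  exact (List.cons.inj h1).1.symm

theorem sec_tau (γ : Γ) (x : X) : sec (tau ψ γ) x = tau ψ ((ψ γ).s x) := by
  apply Subtype.ext
  apply Equiv.ext
  intro w
  have h1 := cons_eq (tau ψ γ) x w
  have h2 : (tau ψ γ).1 (x :: w) = (ψ γ).p x :: act ψ ((ψ γ).s x) w := act_cons ψ γ x w
  rw [h2] at h1
  exact (List.cons.inj h1).2.symm

/-- elements that die act trivially -/
theorem tau_of_dies {γ : Γ} (h : Dies ψ γ) : tau ψ γ = 1 := by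
  induction h with
  | one => exact map_one _
  | step γ hp _ ih =>
    apply T_ext
    · rw [root_tau, hp, root_one]
    · intro x
      rw [sec_tau, ih x, sec_one]

end tau

end Pool.Agent.Y462.SS
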